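import Pool.Agent.helper53.ORT.Spec

/-!
# Row ort:PPA (MP_561ff4_al): singular eigenvector
-/

set_option autoImplicit false

namespace Pool.Agent.ORT

open Module Pool.Agent.GS

theorem PPA_sgsmul {F V : Type} [Field F] [AddCommGroup V] [Module F V]
    {B : LinearMap.BilinForm F V} (hB : Sym B) (h2 : (2 : F) ≠ 0) {u d : V} (c : F)
    (hu : B u u = 0) (hd : B u d = 0) : sg B (c • u) d = sg B u (c • d) := by
  have hu' : B (c • u) (c • u) = 0 := by
    simp only [map_smul, LinearMap.smul_apply, smul_eq_mul, hu, mul_zero]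
  have hd1 : B (c • u) d = 0 := by
    simp only [map_smul, LinearMap.smul_apply, smul_eq_mul, hd, mul_zero]
  have hd2 : B u (c • d) = 0 := by
    simp only [map_smul, smul_eq_mul, hd, mul_zero]
  ext x
  rw [sg_apply hB h2 hu' hd1, sg_apply hB h2 hu hd2]
  simp only [map_smul, LinearMap.smul_apply, smul_eq_mul]
  match_scalars <;> ring

theorem PPA_sgself {F V : Type} [Field F] [AddCommGroup V] [Module F V]
    {B : LinearMap.BilinForm F V} (hB : Sym B) (h2 : (2 : F) ≠ 0) {u : V} (s : F)
    (hu : B u u = 0) : sg B u (s • u) = 1 := by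
  have hd2 : B u (s • u) = 0 := by
    simp only [map_smul, smul_eq_mul, hu, mul_zero]
  ext x
  rw [sg_apply hB h2 hu hd2]
  simp only [map_smul, LinearMap.smul_apply, smul_eq_mul, hu, mul_zero, zero_div, zero_mul,
    zero_smul, sub_zero, Equiv.Perm.coe_one, id_eq]
  match_scalars <;> ring

/-- A vector orthogonal to `u` with nonzero norm. -/
theorem PPA_nonsing {F V : Type} [Field F] [AddCommGroup V] [Module F V] [FiniteDimensional F V]
    {B : LinearMap.BilinForm F V} (hB : Sym B) (h2 : (2 : F) ≠ 0) (hn : 3 ≤ finrank F V)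
    {u w : V} (huw : B u w = 1) : ∃ d, B u d = 0 ∧ B d d ≠ 0 := by
  by_contra hcon
  push Not at hcon
  have hpol : ∀ d e, B u d = 0 → B u e = 0 → B d e = 0 := by
    intro d e hd he
    have h1 := hcon (d + e) (by rw [map_add, hd, he, add_zero])
    rw [map_add, map_add, LinearMap.add_apply, LinearMap.add_apply, hcon d hd, hcon e he,
      zero_add, add_zero, hB.symm e d, ← two_mul] at h1
    exact (mul_eq_zero.1 h1).resolve_left h2
  let L : V →ₗ[F] F × F := (B u).prod (B w)
  have hL : Function.Injective L := by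
    rw [← LinearMap.ker_eq_bot, LinearMap.ker_eq_bot']
    intro x hx
    have hx1 : B u x = 0 := congrArg Prod.fst hx
    have hx2 : B w x = 0 := congrArg Prod.snd hx
    apply hB.nd
    intro z
    have h3 : z = (z - B u z • w) + B u z • w := by rw [sub_add_cancel]
    have h4 : B u (z - B u z • w) = 0 := by
      rw [map_sub, map_smul, huw, smul_eq_mul, mul_one, sub_self]
    rw [h3, map_add, map_smul, hpol x _ hx1 h4, hB.symm x w, hx2, smul_zero, add_zero]
  have h5 := LinearMap.finrank_le_finrank_of_injective hL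
  rw [finrank_prod, finrank_self] at h5
  omega

theorem PPA (sgo : SGO_stmt) (sgu : SGU_stmt) : PPA_stmt := by
  intro F V _ _ _ _ B hchar hB hn y ν hy hsc u c hu0 huu hyu
  have h2 : (2 : F) ≠ 0 := Ring.two_ne_zero hchar
  have hs : ∀ (a : F) (v : V), y (a • v) = a • y v := hy.smul
  have hf : ∀ x z : V, B (y x) (y z) = ν * B x z := hy.form
  have hν := hy.ne
  have hy0 : y 0 = 0 := by
    have := hs 0 0
    rwa [zero_smul, zero_smul] at this
  have hc : c ≠ 0 := by
    intro h
    rw [h, zero_smul, ← hy0] at hyu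
    exact hu0 (y.injective hyu)
  have hperp : ∀ d, B u d = 0 → B u (y d) = 0 := by
    intro d hd
    have h1 := hf u d
    rw [hyu, hd, mul_zero, map_smul, LinearMap.smul_apply, smul_eq_mul] at h1
    exact (mul_eq_zero.1 h1).resolve_left hc
  have hcomm : ∀ d, B u d = 0 →
      y * sg B u d * y⁻¹ * (sg B u d)⁻¹ = sg B u ((c * ν⁻¹) • y d - d) := by
    intro d hd
    have h3 : B u (ν⁻¹ • y d) = 0 := by rw [map_smul, hperp d hd, smul_zero]
    have h4 : B u (c • ν⁻¹ • y d) = 0 := by rw [map_smul, h3, smul_zero]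
    have h5 : B u (-d) = 0 := by rw [map_neg, hd, neg_zero]
    rw [sg_conj hB h2 hy huu hd, hyu, PPA_sgsmul hB h2 c huu h3, sg_inv hB h2 huu hd,
      sg_add hB h2 huu h4 h5, smul_smul, sub_eq_add_neg]
  have hperp' : ∀ d, B u d = 0 → B u ((c * ν⁻¹) • y d - d) = 0 := by
    intro d hd
    rw [map_sub, map_smul, hperp d hd, smul_zero, hd, sub_zero]
  by_cases hcase : ∃ d, B u d = 0 ∧ ∀ a : F, (c * ν⁻¹) • y d - d ≠ a • u
  · obtain ⟨d, hd, hda⟩ := hcase
    obtain ⟨z1, z2⟩ := sgu B hchar hB u ((c * ν⁻¹) • y d - d) huu (hperp' d hd) hu0 hda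
    refine ⟨sg B u ((c * ν⁻¹) • y d - d), sgo B hchar hB hn u _ huu (hperp' d hd), ?_, z1, z2⟩
    rw [← hcomm d hd]
    exact Gn.comm (sgo B hchar hB hn u d huu hd)
  · push Not at hcase
    -- a hyperbolic pair
    obtain ⟨w, huw, hww⟩ : ∃ w, B u w = 1 ∧ B w w = 0 := by
      have h1 : ∃ w₀, B u w₀ ≠ 0 := by
        by_contra h
        push Not at h
        exact hu0 (hB.nd u h)
      obtain ⟨w₀, hw₀⟩ := h1
      have h3 : B u ((B u w₀)⁻¹ • w₀) = 1 := by
        rw [map_smul, smul_eq_mul, inv_mul_cancel₀ hw₀]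
      generalize (B u w₀)⁻¹ • w₀ = w₁ at h3
      refine ⟨w₁ - (B w₁ w₁ / 2) • u, ?_, ?_⟩
      · rw [map_sub, map_smul, huu, smul_zero, sub_zero, h3]
      · simp only [map_sub, map_smul, LinearMap.sub_apply, LinearMap.smul_apply, smul_eq_mul, huu,
          h3, hB.symm w₁ u, mul_zero, sub_zero, mul_one]
        field_simp
        ring
    have hwu : B w u = 1 := by rw [hB.symm, huw]
    -- the multiplier
    obtain ⟨d₁, hd₁, hd₁'⟩ := PPA_nonsing hB h2 hn huw
    have hνc : ν = c ^ 2 := by
      obtain ⟨a, ha⟩ := hcase d₁ hd₁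
      have h3 : (c * ν⁻¹) • y d₁ = d₁ + a • u := by rw [← ha]; abel
      have h4 : B ((c * ν⁻¹) • y d₁) ((c * ν⁻¹) • y d₁) = B (d₁ + a • u) (d₁ + a • u) := by
        rw [h3]
      simp only [map_add, map_smul, LinearMap.add_apply, LinearMap.smul_apply, smul_eq_mul, hf,
        huu, hd₁, hB.symm d₁ u, mul_zero, add_zero] at h4
      have h5 : c ^ 2 * B d₁ d₁ = ν * B d₁ d₁ := by
        calc c ^ 2 * B d₁ d₁ = ν * (c * ν⁻¹ * (c * ν⁻¹ * (ν * B d₁ d₁))) := by
              field_simp
          _ = ν * B d₁ d₁ := by rw [h4]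
      exact (mul_right_cancel₀ hd₁' h5).symm
    have hcν : c * ν⁻¹ = c⁻¹ := by
      rw [hνc]
      field_simp
    rw [hcν] at hcase hcomm hperp'
    -- the isometry
    let cu : Fˣ := Units.mk0 c hc
    let y₁ : Equiv.Perm V := sc V cu⁻¹ * y
    have hy₁ : ∀ x, y₁ x = c⁻¹ • y x := by
      intro x
      show ((cu⁻¹ : Fˣ) : F) • y x = c⁻¹ • y x
      rw [Units.val_inv_eq_inv_val]
      rfl
    have hy₁u : y₁ u = u := by
      rw [hy₁, hyu, smul_smul, inv_mul_cancel₀ hc, one_smul]
    have hy₁f : ∀ x z, B (y₁ x) (y₁ z) = B x z := by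
      intro x z
      rw [hy₁, hy₁, map_smul, map_smul, LinearMap.smul_apply, hf, hνc, smul_eq_mul, smul_eq_mul]
      field_simp
    have hy₁add : ∀ x z, y₁ (x + z) = y₁ x + y₁ z := by
      intro x z
      rw [hy₁, hy₁, hy₁, hy.add, smul_add]
    have hy₁smul : ∀ (a : F) x, y₁ (a • x) = a • y₁ x := by
      intro a x
      rw [hy₁, hy₁, hs, smul_smul, smul_smul, mul_comm]
    have hBy₁w : B (y₁ w) u = 1 := by
      have := hy₁f w u
      rw [hy₁u, hwu] at this
      exact this
    have hBuy₁w : B u (y₁ w) = 1 := by rw [hB.symm, hBy₁w]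
    have hd0 : B u (y₁ w - w) = 0 := by rw [map_sub, hBuy₁w, huw, sub_self]
    have hN : B (y₁ w - w) (y₁ w - w) = - (2 * B w (y₁ w)) := by
      rw [map_sub, map_sub, LinearMap.sub_apply, LinearMap.sub_apply, hy₁f, hww,
        hB.symm (y₁ w) w]
      ring
    have hsg : y₁ = sg B u (y₁ w - w) := by
      have e1 : ∀ d, B u d = 0 → y₁ d = sg B u (y₁ w - w) d := by
        intro d hd
        have hd' : B d u = 0 := by rw [hB.symm, hd]
        obtain ⟨a, ha⟩ := hcase d hd
        have h3 : y₁ d = d + a • u := by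
          rw [hy₁, ← ha]
          abel
        have h4 := hy₁f w d
        rw [h3, map_add, map_smul, hBy₁w, smul_eq_mul, mul_one] at h4
        rw [sg_apply hB h2 huu hd0, hd', h3, zero_smul, add_zero, mul_zero, zero_smul, sub_zero,
          map_sub]
        have h5 : a = B w d - B (y₁ w) d := by rw [← h4]; ring
        rw [h5, hB.symm d (y₁ w), hB.symm d w]
        match_scalars <;> ring
      have e2 : y₁ w = sg B u (y₁ w - w) w := by
        rw [sg_apply hB h2 huu hd0, hN, hwu, map_sub, hww]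
        match_scalars
        · ring
        · ring
        · field_simp
          ring
      have hlin := (sg_mem hB u (y₁ w - w)).1
      ext x
      have h3 : x = (x - B u x • w) + B u x • w := by rw [sub_add_cancel]
      have h4 : B u (x - B u x • w) = 0 := by
        rw [map_sub, map_smul, huw, smul_eq_mul, mul_one, sub_self]
      have h5 : y₁ x = y₁ (x - B u x • w) + B u x • y₁ w := by
        conv_lhs => rw [h3]
        rw [hy₁add, hy₁smul]
      have h6 : sg B u (y₁ w - w) x = sg B u (y₁ w - w) (x - B u x • w) +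
          B u x • sg B u (y₁ w - w) w := by
        conv_lhs => rw [h3]
        rw [hlin.1, hlin.2]
      rw [h5, h6, ← e1 _ h4, ← e2]
    have hnot : ∀ a : F, y₁ w - w ≠ a • u := by
      intro a ha
      rw [ha, PPA_sgself hB h2 a huu] at hsg
      obtain ⟨v, hv⟩ := hsc c
      apply hv
      have h3 : y₁ v = v := by
        rw [hsg]
        exact Equiv.Perm.one_apply v
      rw [hy₁] at h3
      calc y v = c • (c⁻¹ • y v) := by rw [smul_smul, mul_inv_cancel₀ hc, one_smul]
        _ = c • v := by rw [h3]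
    obtain ⟨z1, z2⟩ := sgu B hchar hB u (y₁ w - w) huu hd0 hu0 hnot
    refine ⟨sg B u (y₁ w - w), sgo B hchar hB hn u _ huu hd0, ?_, z1, z2⟩
    refine ⟨fun _ => 1, fun _ => (Om B).one_mem, cu, ?_⟩
    rw [← hsg]
    have h3 : sc V cu * y₁ = y := by
      show sc V cu * (sc V cu⁻¹ * y) = y
      rw [← mul_assoc, ← sc_mul, mul_inv_cancel, sc_one, one_mul]
    rw [h3]
    apply Subgroup.subset_closure
    exact ⟨0, by simp⟩

end Pool.Agent.ORT
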